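import Mathlib
import Pool.Agent.H53.Sig2

namespace Pool.Agent.Results.MP_15ce38_nt.MaxProduct

open Finset

/-- Let `v` be the sequence with `v 1 = 1`, `v 2 = 2` and the given recursion (these hypotheses
determine `v n` for `n ≥ 1`).  Every non-decreasing tuple of `n ≥ 2` positive integers with
`∑_{i<j} 1/(x_i x_j) = 1` (that is, `σ_{n-2} = σ_n`) has product at most `v_1 ⋯ v_{n-1} (v_n - 1)`. -/
theorem result : ∀ v : ℕ → ℚ, v 1 = 1 → v 2 = 2 →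
    (∀ n, 2 ≤ n → v (n + 1) = 1 + (∑ i ∈ Icc 1 n, 1 / v i) /
      (1 - ∑ i ∈ Icc 1 n, ∑ j ∈ Icc 1 n with i < j, 1 / (v i * v j))) →
    ∀ (n : ℕ), 2 ≤ n → ∀ x : Fin n → ℕ, Monotone x → (∀ i, 0 < x i) →
      ∑ i, ∑ j with i < j, 1 / ((x i : ℚ) * x j) = 1 →
      (∏ i, x i : ℚ) ≤ (∏ i ∈ Icc 1 (n - 1), v i) * (v n - 1) :=
  Pool.Agent.H53.Sig2.final

end Pool.Agent.Results.MP_15ce38_nt.MaxProduct
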